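import Pool.Agent.H58.HN.TargetsG
import Pool.Agent.H58.HN.TargetsA

set_option autoImplicit false

namespace Pool.Agent.H97.HN

open Pool.Agent.H58.HN Pool.Agent.H53.RG

private theorem sel_unique {A : Type} [Ring A] {VS : Set (Multiset A)} {sel : A → A → Prop}
    (h1 : ∀ s ∈ VS, ∃ (a : A) (t : Multiset A), s = a ::ₘ t ∧ sel s.sum a ∧
      ∀ b ∈ t, ¬ sel s.sum b) {I : Type} [Fintype I] [DecidableEq I] (cl : I → A)
    (hcl : Finset.univ.val.map cl ∈ VS) :
    ∃ i, sel (Finset.univ.val.map cl).sum (cl i) ∧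
      ∀ j, sel (Finset.univ.val.map cl).sum (cl j) → j = i := by
  obtain ⟨a, t, e, ha, ht⟩ := h1 _ hcl
  have h2 : a ∈ Finset.univ.val.map cl := by
    rw [e]
    exact Multiset.mem_cons_self a t
  obtain ⟨i, hi, rfl⟩ := Multiset.mem_map.1 h2
  refine ⟨i, ha, fun j hj => by_contra fun hne => ht (cl j) ?_ hj⟩
  have h3 : Finset.univ.val.map cl = cl i ::ₘ (Finset.univ.val.erase i).map cl := by
    rw [← Multiset.map_cons, Multiset.cons_erase hi]
  have h4 : t = (Finset.univ.val.erase i).map cl := by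
    rw [h3] at e
    exact ((Multiset.cons_inj_right _).1 e).symm
  rw [h4]
  exact Multiset.mem_map_of_mem cl ((Multiset.mem_erase_of_ne hne).2 (Finset.mem_univ_val j))

theorem pf_FA (hGB : T_GB) (hGG : T_GG) (hAF : T_AF) (hLE : T_LE) (hLF : T_LF) : T_FA := by
  intro V T E R p hs hw hgood hU h hh hols
  have hfin := hgood.fin
  obtain ⟨A, _, _, _, act, harc⟩ := hGB T R hgood.symm hgood.irr hgood.edge hgood.walk
  have hsys := hGG T A R act hgood harc
  obtain ⟨sel, hsel1, hsel2⟩ := hAF A (VV R act) (AA R act) hsys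
  have hedge : ∃ x y, E x y := by
    obtain ⟨a, b, hab⟩ := hgood.edge
    obtain ⟨x, _, y, _, hxy⟩ := hU a b hab Set.univ Filter.univ_mem Set.univ Filter.univ_mem
    exact ⟨x, y, hxy⟩
  obtain ⟨cl, hcl, hcl'⟩ := hLE V T A (Fin 6) E R act p hs hw hgood harc hU h hh
  obtain ⟨i0, hi0, _⟩ := sel_unique hsel1 cl hcl
  let P1 : Fin 6 → Fin 2 := ![0, 0, 1, 1, 1, 0]
  let P2 : Fin 6 → Fin 2 := ![0, 1, 0, 1, 0, 1]
  let P3 : Fin 6 → Fin 2 := ![1, 0, 0, 0, 1, 1]
  have c1 : ∀ y : Fin 2 → V, y ∘ P1 = ![y 0, y 0, y 1, y 1, y 1, y 0] := by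
    intro y
    funext k
    fin_cases k <;> rfl
  have c2 : ∀ y : Fin 2 → V, y ∘ P2 = ![y 0, y 1, y 0, y 1, y 0, y 1] := by
    intro y
    funext k
    fin_cases k <;> rfl
  have c3 : ∀ y : Fin 2 → V, y ∘ P3 = ![y 1, y 0, y 0, y 0, y 1, y 1] := by
    intro y
    funext k
    fin_cases k <;> rfl
  have g2 : (fun y : Fin 2 → V => h (y ∘ P2)) = fun y => h (y ∘ P1) := by
    funext y
    rw [c1, c2]
    exact (hols (y 0) (y 1)).1.symm
  have g3 : (fun y : Fin 2 → V => h (y ∘ P3)) = fun y => h (y ∘ P1) := by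
    funext y
    rw [c1, c3]
    exact ((hols (y 0) (y 1)).1.trans (hols (y 0) (y 1)).2).symm
  have hg : Arc (Pw (Fin 2) E) R (fun y => h (y ∘ P1)) (fun y => h (y ∘ P1)) :=
    fun x y hxy => hh _ _ fun i => hxy _
  obtain ⟨clg, hclg, hclg'⟩ := hLE V T A (Fin 2) E R act p hs hw hgood harc hU
    (fun y => h (y ∘ P1)) hg
  obtain ⟨j1, hj1, _⟩ := sel_unique hsel1 clg hclg
  obtain ⟨P, hPi, hPg⟩ : ∃ P : Fin 6 → Fin 2, P i0 ≠ j1 ∧
      (fun y : Fin 2 → V => h (y ∘ P)) = fun y => h (y ∘ P1) := by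
    have h5 : ∀ (i : Fin 6) (j : Fin 2), P1 i ≠ j ∨ P2 i ≠ j ∨ P3 i ≠ j := by decide
    rcases h5 i0 j1 with h6 | h6 | h6
    · exact ⟨P1, h6, rfl⟩
    · exact ⟨P2, h6, g2⟩
    · exact ⟨P3, h6, g3⟩
  let ρ : Fin 6 → Option (Fin 6) := fun k => if P k = j1 then none else some k
  let σ : Option (Fin 6) → Fin 2 := fun o => if o = none then j1 else 1 - j1
  have hρ : ρ i0 = some i0 := if_neg hPi
  have hσρ : σ ∘ ρ = P := by
    funext k
    show σ (ρ k) = P k
    by_cases h7 : P k = j1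
    · have h8 : ρ k = none := if_pos h7
      rw [h8, h7]
      exact if_pos rfl
    · have h8 : ρ k = some k := if_neg h7
      rw [h8]
      have h9 : σ (some k) = 1 - j1 := if_neg (by simp)
      rw [h9]
      have h10 : ∀ a b : Fin 2, a ≠ b → 1 - b = a := by decide
      exact h10 _ _ h7
  obtain ⟨cl2, hcl2, hcl2'⟩ := hLE V T A (Option (Fin 6)) E R act p hs hw hgood harc hU
    (fun y => h (y ∘ ρ)) (fun x y hxy => hh _ _ fun i => hxy _)
  obtain ⟨k0, _, hk0⟩ := sel_unique hsel1 cl2 hcl2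
  have e1 : cl2 (ρ i0) = cl i0 := by
    refine hLF V T A (Fin 6) (Option (Fin 6)) E R act p hfin hedge hU h ρ cl cl2 hcl' hcl2' i0 ?_
    intro i' h11
    rw [hρ] at h11
    by_cases h12 : P i' = j1
    · have h13 : ρ i' = none := if_pos h12
      rw [h13] at h11
      exact absurd h11 (by simp)
    · have h13 : ρ i' = some i' := if_neg h12
      rw [h13] at h11
      exact Option.some_injective _ h11
  have hgg : (fun y : Fin 2 → V => (fun y : Option (Fin 6) → V => h (y ∘ ρ)) (y ∘ σ)) =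
      fun y => h (y ∘ P1) := by
    rw [← hPg]
    funext y
    show h ((y ∘ σ) ∘ ρ) = h (y ∘ P)
    rw [Function.comp_assoc, hσρ]
  have hσn : σ none = j1 := if_pos rfl
  have e2 : clg (σ none) = cl2 none := by
    refine hLF V T A (Option (Fin 6)) (Fin 2) E R act p hfin hedge hU (fun y => h (y ∘ ρ)) σ
      cl2 clg hcl2' ?_ none ?_
    · rw [hgg]
      exact hclg'
    · intro o h14
      by_contra h15
      have h16 : σ o = 1 - j1 := if_neg h15
      rw [h16, hσn] at h14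
      have h17 : ∀ a : Fin 2, 1 - a ≠ a := by decide
      exact h17 _ h14
  have s1 : sel (Finset.univ.val.map cl2).sum (cl2 (some i0)) := by
    rw [hρ] at e1
    rw [e1]
    refine hsel2 _ hcl _ hcl2 _ (Multiset.mem_map_of_mem cl (Finset.mem_univ_val i0)) ?_ hi0
    rw [← e1]
    exact Multiset.mem_map_of_mem cl2 (Finset.mem_univ_val _)
  have s2 : sel (Finset.univ.val.map cl2).sum (cl2 none) := by
    rw [← e2, hσn]
    refine hsel2 _ hclg _ hcl2 _ (Multiset.mem_map_of_mem clg (Finset.mem_univ_val j1)) ?_ hj1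
    rw [← hσn, e2]
    exact Multiset.mem_map_of_mem cl2 (Finset.mem_univ_val _)
  have h18 := (hk0 _ s1).trans (hk0 _ s2).symm
  exact absurd h18 (by simp)

end Pool.Agent.H97.HN
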