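import Pool.Agent.H58.HN.TargetsG

set_option autoImplicit false

namespace Pool.Agent.H97.HN

open Pool.Agent.H58.HN Pool.Agent.H53.RG

private theorem walk_fun {T : Type} {R : T → T → Prop} : ∀ (L : ℕ) (x y : T), Walk R L x y →
    ∃ w : ℕ → T, w 0 = x ∧ w L = y ∧ ∀ k < L, R (w k) (w (k + 1)) := by
  intro L
  induction L with
  | zero =>
    intro x y h
    exact ⟨fun _ => x, rfl, h, fun k hk => absurd hk (Nat.not_lt_zero k)⟩
  | succ L ih =>
    intro x y h
    obtain ⟨z, hz, h'⟩ := h
    obtain ⟨w, h0, hL, hw⟩ := ih z y h'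
    refine ⟨fun k => Nat.casesOn k x w, rfl, hL, ?_⟩
    intro k hk
    cases k with
    | zero =>
      show R x (w 0)
      rw [h0]
      exact hz
    | succ k => exact hw k (by omega)

private theorem arc_sl {T I : Type} [DecidableEq I] {R : T → T → Prop} {H : (I → T) → T}
    (hH : Arc (Pw I R) R H H) (i : I) {s s' : I → T} (hs : Pw I R s s') :
    Arc R R (sl H i s) (sl H i s') := by
  intro x y hxy
  refine hH _ _ fun j => ?_
  by_cases h : j = i
  · subst h
    simpa using hxy
  · simpa [Function.update_of_ne h] using hs j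

theorem pf_GD (hC : T_GC) : T_GD := by
  intro T A I _ R _ act hgood harc H hH
  obtain ⟨a, b, hab⟩ := hgood.edge
  obtain ⟨L, hL, hwalk⟩ := hgood.walk
  refine ⟨fun i => act (sl H i fun _ => a) (sl H i fun _ => b), hH, ?_⟩
  intro i s s' hs
  choose ω h0 h1 h2 using fun j => walk_fun L (s' j) a (hwalk (s' j) a)
  obtain ⟨m, hm⟩ := hL
  let W : ℕ → I → T := fun k => Nat.casesOn k s fun k j => if k ≤ L then ω j k else b
  have hW0 : W 0 = s := rfl
  have hW1 : ∀ k, W (k + 1) = fun j => if k ≤ L then ω j k else b := fun k => rfl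
  have hstep : ∀ k < 2 * (m + 1) + 1, Pw I R (W k) (W (k + 1)) := by
    intro k hk j
    cases k with
    | zero =>
      rw [hW0, hW1]
      show R (s j) (if 0 ≤ L then ω j 0 else b)
      rw [if_pos (Nat.zero_le L), h0]
      exact hs j
    | succ k =>
      rw [hW1, hW1]
      show R (if k ≤ L then ω j k else b) (if k + 1 ≤ L then ω j (k + 1) else b)
      rw [if_pos (by omega : k ≤ L)]
      by_cases h3 : k + 1 ≤ L
      · rw [if_pos h3]
        exact h2 j k (by omega)
      · rw [if_neg h3]
        have h4 : k = L := by omega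
        rw [h4, h1]
        exact hab
  have key := hC T A R act hgood.symm harc (m + 1) (fun k => sl H i (W k))
    fun k hk => arc_sl hH i (hstep k hk)
  have e1 : W 1 = s' := by
    refine (hW1 0).trans ?_
    funext j
    rw [if_pos (Nat.zero_le L), h0]
  have e2 : W (2 * (m + 1)) = fun _ => a := by
    have h5 : 2 * (m + 1) = L + 1 := by omega
    rw [h5, hW1]
    funext j
    rw [if_pos le_rfl, h1]
  have e3 : W (2 * (m + 1) + 1) = fun _ => b := by
    have h5 : 2 * (m + 1) = L + 1 := by omega
    rw [h5, hW1]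
    funext j
    rw [if_neg (by omega)]
  simp only [hW0, e1, e2, e3] at key
  exact key

end Pool.Agent.H97.HN
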