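import Pool.Agent.H58.HN.TargetsG

set_option autoImplicit false

namespace Pool.Agent.H97.HN

open Pool.Agent.H58.HN

private theorem sl_equiv {I J X Y : Type} [DecidableEq I] [DecidableEq J] (f : (I → X) → Y)
    (e : I ≃ J) (i : I) (u : J → X) :
    sl f i (u ∘ e) = sl (fun x => f (x ∘ e)) (e i) u := by
  funext z
  unfold sl
  show f _ = f _
  rw [Function.update_comp_equiv, Equiv.symm_apply_apply]

theorem pf_LD (hC : T_LC) : T_LD := by
  intro V T I _ _ E R p hT hedge hU f hf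
  obtain ⟨n, ⟨e⟩⟩ := Finite.exists_equiv_fin I
  obtain ⟨H, hH, hsl⟩ := hC V T n E R p hT hedge hU (fun x => f (x ∘ e))
    (fun x y hxy => hf _ _ fun i => hxy (e i))
  refine ⟨fun s => H (s ∘ e.symm), fun x y hxy => hH _ _ fun i => hxy (e.symm i), ?_⟩
  intro i s s' hs
  obtain ⟨Φ, Φ', h1, h2, h3⟩ := hsl (e i) (s ∘ e.symm) (s' ∘ e.symm) fun j => hs (e.symm j)
  have key : ∀ s : I → T, sl (fun s : I → T => H (s ∘ e.symm)) i s = sl H (e i) (s ∘ e.symm) := by
    intro s
    funext z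
    unfold sl
    show H _ = H _
    rw [Function.update_comp_equiv, Equiv.symm_symm]
  refine ⟨Φ, Φ', ?_, ?_, ?_⟩
  · intro F
    obtain ⟨u, u', hu, h4, h5⟩ := h1 F
    refine ⟨u ∘ e, u' ∘ e, fun j => hu (e j), fun x hx => ?_, fun x hx => ?_⟩
    · rw [sl_equiv]
      exact h4 x hx
    · rw [sl_equiv]
      exact h5 x hx
  · rw [key]
    exact h2
  · rw [key]
    exact h3

end Pool.Agent.H97.HN
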