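import Pool.Agent.H58.HN.TargetsG

set_option autoImplicit false

namespace Pool.Agent.H97.HN

open Pool.Agent.H58.HN

theorem pf_LE (hB : T_LB) (hD : T_LD) (hG : T_GD) : T_LE := by
  intro V T A I _ _ E R _ act p hs hw hgood harc hU f hf
  obtain ⟨a, b, hab⟩ := hgood.edge
  have hedge : ∃ x y, E x y := by
    obtain ⟨x, _, y, _, hxy⟩ := hU a b hab Set.univ Filter.univ_mem Set.univ Filter.univ_mem
    exact ⟨x, y, hxy⟩
  obtain ⟨H, hH, hsl⟩ := hD V T I E R p hgood.fin hedge hU f hf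
  obtain ⟨cl, hcl⟩ := hG T A I R act hgood harc H hH
  refine ⟨cl, ⟨I, inferInstance, inferInstance, H, cl, hcl, rfl⟩, ?_⟩
  intro i u u' hu φ φ' hφ hφ'
  obtain ⟨Φ, Φ', h1, h2, h3⟩ := hsl i (fun _ => a) (fun _ => b) fun _ => hab
  have e1 := hB V T A I E R act p hs hw hgood harc hU f hf i (sl f i u) (sl f i u') Φ Φ' φ φ'
    (sl H i fun _ => a) (sl H i fun _ => b)
    (fun F => ⟨u, u', hu, fun _ _ => rfl, fun _ _ => rfl⟩) h1 hφ hφ' h2 h3
  rw [e1]
  exact hcl.2 i _ _ fun _ => hab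

end Pool.Agent.H97.HN
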