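import Pool.Agent.H58.HN.TargetsG

set_option autoImplicit false

namespace Pool.Agent.H97.HN

open Pool.Agent.H58.HN

private theorem sl_minor {I J X Y : Type} [DecidableEq I] [DecidableEq J] (f : (I → X) → Y)
    (π : I → J) (i : I) (hi : ∀ i', π i' = π i → i' = i) (u : J → X) :
    sl (fun y => f (y ∘ π)) (π i) u = sl f i (u ∘ π) := by
  funext z
  unfold sl
  show f _ = f _
  congr 1
  funext i'
  by_cases h : i' = i
  · subst h
    simp
  · have h2 : π i' ≠ π i := fun h3 => h (hi i' h3)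
    simp [Function.update_of_ne h, Function.update_of_ne h2]

theorem pf_LF (hA : T_LA) : T_LF := by
  intro V T A I J _ _ E R _ act p hT hedge hU f π cl cl' h1 h2 i hi
  obtain ⟨x, y, hxy⟩ := hedge
  obtain ⟨φ, hφ⟩ := (hA V T T E R R p hU).1 (sl f i fun _ => x)
  obtain ⟨φ', hφ'⟩ := (hA V T T E R R p hU).1 (sl f i fun _ => y)
  have e1 := h1 i (fun _ => x) (fun _ => y) (fun _ => hxy) φ φ' hφ hφ'
  have e2 := h2 (π i) (fun _ => x) (fun _ => y) (fun _ => hxy) φ φ'
    (by
      rw [sl_minor f π i hi]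
      exact hφ)
    (by
      rw [sl_minor f π i hi]
      exact hφ')
  rw [← e1, ← e2]

end Pool.Agent.H97.HN
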