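import Pool.Agent.H58.HN.TargetsG

set_option autoImplicit false

namespace Pool.Agent.H97.HN

open Pool.Agent.H58.HN

private theorem transport {V T T' : Type} {E : V → V → Prop} {R : T → T → Prop}
    {R' : T' → T' → Prop} (h : SameImages E R) (hT : Finite T') (hs : ∀ s t, R' s t → R' t s)
    (f : T → T') (hf : ∀ s t, R s t → R' (f s) (f t)) (g : T' → T)
    (hg : ∀ s t, R' s t → R (g s) (g t)) : SameImages E R' where
  fin := hT
  symm := hs
  irr := fun t ht => h.irr _ (hg _ _ ht)
  img := by
    intro H _ Q hQ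
    rw [h.img H Q hQ]
    constructor
    · rintro ⟨φ, hφ⟩
      exact ⟨φ ∘ g, fun s t hst => hφ _ _ (hg _ _ hst)⟩
    · rintro ⟨φ, hφ⟩
      exact ⟨φ ∘ f, fun s t hst => hφ _ _ (hf _ _ hst)⟩

private theorem toFin {V T : Type} {E : V → V → Prop} {R : T → T → Prop}
    (h : SameImages E R) {n : ℕ} (e : T ≃ Fin n) :
    ∃ R' : Fin n → Fin n → Prop, SameImages E R' := by
  refine ⟨fun a b => R (e.symm a) (e.symm b), transport h inferInstance
    (fun a b => h.symm _ _) e (fun s t hst => ?_) e.symm fun a b hab => hab⟩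
  show R _ _
  rw [Equiv.symm_apply_apply, Equiv.symm_apply_apply]
  exact hst

theorem pf_RA : T_RA := by
  classical
  intro V T E R h
  have hfin := h.fin
  obtain ⟨n0, ⟨e0⟩⟩ := Finite.exists_equiv_fin T
  have hex : ∃ n, ∃ R' : Fin n → Fin n → Prop, SameImages E R' := ⟨n0, toFin h e0⟩
  obtain ⟨R', hR'⟩ := Nat.find_spec hex
  refine ⟨Fin (Nat.find hex), R', hR', ?_⟩
  intro φ hφ
  by_contra hnb
  have hns : ¬ Function.Surjective φ := fun hs => hnb (Finite.surjective_iff_bijective.1 hs)
  have hcard : Nat.card (Set.range φ) < Nat.find hex := by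
    have h1 : Set.range φ ≠ Set.univ := fun h2 => hns (Set.range_eq_univ.1 h2)
    have h2 : Set.range φ ⊂ Set.univ := Set.ssubset_univ_iff.2 h1
    have h3 := Set.ncard_lt_ncard h2 Set.finite_univ
    rw [Set.ncard_univ, Nat.card_eq_fintype_card, Fintype.card_fin] at h3
    exact h3
  refine Nat.find_min hex hcard ?_
  have hU : SameImages E (fun a b : Set.range φ => R' a.1 b.1) :=
    transport hR' inferInstance (fun a b => hR'.symm _ _) (fun t => ⟨φ t, t, rfl⟩)
      (fun s t hst => hφ s t hst) (fun a => a.1) fun a b hab => hab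
  exact toFin hU (Finite.equivFin _)

end Pool.Agent.H97.HN
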