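import Pool.Agent.H58.HN.TargetsG

set_option autoImplicit false

namespace Pool.Agent.H97.HN

open Pool.Agent.H58.HN Pool.Agent.H53.FC Pool.Agent.H53.RG Pool.Agent.H58.SF

private def orb {V : Type} (Γ : Subgroup (Equiv.Perm V)) : Setoid V where
  r x y := ∃ g ∈ Γ, g x = y
  iseqv := ⟨fun x => ⟨1, Γ.one_mem, rfl⟩,
    fun {x y} ⟨g, hg, h⟩ => ⟨g⁻¹, Γ.inv_mem hg, by rw [← h]; simp⟩,
    fun {x y z} ⟨g, hg, h⟩ ⟨g', hg', h'⟩ => ⟨g' * g, Γ.mul_mem hg' hg, by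
      rw [← h', ← h]; rfl⟩⟩

theorem pf_RD : T_RD := by
  intro V E m Γ hs hcol hage hE hP
  obtain ⟨P, hP⟩ := hP
  let T := Quotient (orb Γ)
  let R : T → T → Prop := fun s t => ∃ x y, (Quotient.mk (orb Γ) x) = s ∧
    (Quotient.mk (orb Γ) y) = t ∧ E x y
  have hfin : Finite T := by
    refine Finite.of_surjective (fun y : {y // y ∈ P} => (Quotient.mk (orb Γ) y.1 : T)) ?_
    intro t
    obtain ⟨x, rfl⟩ := Quotient.exists_rep t
    obtain ⟨y, hy, g, hg, hgy⟩ := hP x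
    exact ⟨⟨y, hy⟩, Quotient.sound ⟨g, hg, hgy⟩⟩
  have hO : OrbitCopy E Γ R (fun t => {x | (Quotient.mk (orb Γ) x : T) = t}) := by
    refine ⟨?_, ?_, ?_, ?_⟩
    · intro t
      obtain ⟨x, hx⟩ := Quotient.exists_rep t
      exact ⟨x, hx⟩
    · intro t x hx γ hγ
      have h1 : (Quotient.mk (orb Γ) x : T) = t := hx
      show (Quotient.mk (orb Γ) (γ x) : T) = t
      rw [← h1]
      exact (Quotient.sound (show (orb Γ).r x (γ x) from ⟨γ, hγ, rfl⟩)).symm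
    · intro t x hx y hy
      have h1 : (Quotient.mk (orb Γ) x : T) = t := hx
      have h2 : (Quotient.mk (orb Γ) y : T) = t := hy
      exact Quotient.exact (h1.trans h2.symm)
    · rintro s t ⟨x, y, hx, hy, hxy⟩
      exact ⟨x, hx, y, hy, hxy⟩
  have hmaps : MapsToFiniteImages R E := mapsToFiniteImages_of_group hage hE hO
  refine ⟨T, R, hfin, ?_, ?_, ?_⟩
  · rintro s t ⟨x, y, hx, hy, hxy⟩
    exact ⟨y, x, hy, hx, hs _ _ hxy⟩
  · intro t ht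
    obtain ⟨κ, hκ⟩ := hcol
    obtain ⟨φ, hφ⟩ := hmaps (Fin m) (fun i j => i ≠ j) (fun a b h => h.symm) ⟨κ, hκ⟩
    exact hφ t t ht rfl
  · intro H _ Q hQ
    constructor
    · intro h
      exact hmaps H Q hQ h
    · rintro ⟨φ, hφ⟩
      exact ⟨fun x => φ (Quotient.mk (orb Γ) x), fun x y hxy => hφ _ _ ⟨x, y, rfl, rfl, hxy⟩⟩

end Pool.Agent.H97.HN
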